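import Mathlib

set_option autoImplicit false

/-!
# Cardinal arithmetic of `ℶ_ω₁`
-/

namespace Pool.Agent.R582.SC

open Cardinal Set Ordinal

theorem isSuccLimit_omega_one : Order.IsSuccLimit (ω_ 1 : Ordinal.{0}) := isSuccLimit_omega 1

theorem cof_beth_omega_one : (ℶ_ (ω_ 1 : Ordinal.{0})).ord.cof = ℵ_ 1 := by
  have h1 : ((ord ∘ beth) (ω_ 1 : Ordinal.{0})).cof = (ω_ 1 : Ordinal.{0}).cof :=
    cof_map_of_isNormal (isNormal_ord.comp isNormal_beth) isSuccLimit_omega_one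
  have h2 : (ω_ 1 : Ordinal.{0}).cof = ℵ_ 1 := by
    rw [← Cardinal.ord_aleph]
    exact Cardinal.isRegular_aleph_one.cof_eq
  exact h1.trans h2

theorem lt_power : ℶ_ (ω_ 1 : Ordinal.{0}) < ℶ_ (ω_ 1 : Ordinal.{0}) ^ (ℵ_ 1 : Cardinal.{0}) := by
  have h := lt_power_cof_ord (c := ℶ_ (ω_ 1 : Ordinal.{0})) (aleph0_le_beth _)
  rwa [cof_beth_omega_one] at h

theorem power_aleph0 {μ : Cardinal.{0}} (h1 : μ.IsStrongLimit) (h2 : ℵ₀ < μ.ord.cof) :
    μ ^ ℵ₀ = μ := by
  induction μ using Cardinal.inductionOn with | mk α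
  have hα : ℵ₀ ≤ #α := h1.aleph0_le
  apply le_antisymm
  · have h3 : #(ℕ × α) = #α := by
      rw [Cardinal.mk_prod, Cardinal.lift_id, Cardinal.lift_id, Cardinal.mk_nat,
        Cardinal.aleph0_mul_eq hα]
    have h4 : #(ℕ → α) ≤ #{s : Set (ℕ × α) // #s < cof (#(ℕ × α)).ord} := by
      refine Cardinal.mk_le_of_injective (f := fun f => ⟨range fun n => (n, f n), ?_⟩) ?_
      · rw [h3]
        refine lt_of_le_of_lt ?_ h2
        exact Cardinal.le_aleph0_iff_set_countable.mpr (countable_range _)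
      · intro f g hfg
        have h5 : range (fun n => (n, f n)) = range (fun n => (n, g n)) := congrArg Subtype.val hfg
        funext n
        have h6 : (n, f n) ∈ range (fun n => (n, g n)) := h5 ▸ mem_range_self n
        obtain ⟨m, hm⟩ := h6
        obtain ⟨rfl, h7⟩ := Prod.mk.inj hm
        exact h7.symm
    rw [mk_subset_mk_lt_cof (by rw [h3]; exact h1.isStrongPrelimit), h3] at h4
    simpa using h4
  · exact Cardinal.self_le_power _ Cardinal.one_le_aleph0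

theorem beth_power : ℶ_ (ω_ 1 : Ordinal.{0}) ^ (ℵ₀ : Cardinal.{0}) = ℶ_ (ω_ 1 : Ordinal.{0}) := by
  refine power_aleph0 (isStrongLimit_beth.mpr isSuccLimit_omega_one.isSuccPrelimit) ?_
  rw [cof_beth_omega_one]
  exact Cardinal.aleph0_lt_aleph_one

theorem two_power_lt : (2 : Cardinal.{0}) ^ (ℵ_ 1 : Cardinal.{0}) < ℶ_ (ω_ 1 : Ordinal.{0}) := by
  have h1 : (ℶ_ (ω_ 1 : Ordinal.{0})).IsStrongLimit :=
    isStrongLimit_beth.mpr isSuccLimit_omega_one.isSuccPrelimit
  refine h1.two_power_lt ?_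
  refine (aleph_le_beth 1).trans_lt (beth_lt_beth.mpr ?_)
  exact (Ordinal.one_lt_omega0).trans_le (Ordinal.omega0_le_omega 1)

end Pool.Agent.R582.SC
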