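import Mathlib
import Pool.Agent.Helper292.SP.Lib

set_option autoImplicit false

/-!
# A closing off argument
-/

namespace Pool.Agent.R582.SC

open Cardinal Set

section

variable {S Θ E : Type}

/-- the arities of the terms -/
def Ar (S Θ : Type) : Option S → Type
  | none => PEmpty
  | some _ => Θ

/-- the value of a term -/
def ev (e0 : E) (F : S → (Θ → E) → E) : WType (Ar S Θ) → E
  | ⟨none, _⟩ => e0
  | ⟨some a, s⟩ => F a fun i => ev e0 F (s i)

/-- The closure of a point under operations of arity `Θ`. -/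
theorem exists_closed {χ : Cardinal.{0}} (hχ : ℵ₀ ≤ χ) (hS : #S ≤ χ) (hpow : χ ^ #Θ ≤ χ) (e0 : E)
    (F : S → (Θ → E) → E) : ∃ N : Set E, #N ≤ χ ∧ N.Nonempty ∧
      ∀ a (s : Θ → E), (∀ i, s i ∈ N) → F a s ∈ N := by
  refine ⟨range (ev e0 F), ?_, ⟨_, ⟨WType.mk none PEmpty.elim, rfl⟩⟩, ?_⟩
  · refine Cardinal.mk_range_le.trans ?_
    refine WType.cardinalMk_le_of_le ?_
    have h1 : ∀ a : Option S, χ ^ #(Ar S Θ a) ≤ χ := by
      rintro (_ | a)
      · show χ ^ #PEmpty ≤ χ
        rw [Cardinal.mk_eq_zero, Cardinal.power_zero]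
        exact Cardinal.one_le_aleph0.trans hχ
      · exact hpow
    calc Cardinal.sum (fun a : Option S => χ ^ #(Ar S Θ a)) ≤ Cardinal.sum fun _ : Option S => χ :=
          Cardinal.sum_le_sum _ _ h1
      _ = #(Option S) * χ := Cardinal.sum_const' _ _
      _ ≤ χ * χ := by
          refine mul_le_mul' ?_ le_rfl
          rw [Cardinal.mk_option]
          exact (add_le_add hS (Cardinal.one_le_aleph0.trans hχ)).trans (Cardinal.add_eq_self hχ).le
      _ = χ := Cardinal.mul_eq_self hχ
  · intro a s hs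
    choose w hw using hs
    refine ⟨WType.mk (some a) w, ?_⟩
    show F a (fun i => ev e0 F (w i)) = F a s
    congr 1
    exact funext hw

end

end Pool.Agent.R582.SC
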