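import Mathlib
import Pool.Agent.R582.SC.Closure
import Pool.Agent.R582.Coh.Supp

set_option autoImplicit false

/-!
# Finding similar names
-/

namespace Pool.Agent.R582.SC

open Cardinal Set
open Pool.Agent.Helper292.SP (fnot fand fall fimp fiff fex fground meets IsFun mem_fex mem_fimp
  not_fex down_meets meets_cst meets_of_mem pigeon)
open Pool.Agent.H631R2 (CCC NoOnto PowLE meets_of_dense mem_fiff mem_fiff_meets Cond)
open Pool.Agent.R582.Coh

section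

variable {I Θ Λ G : Type}

/-- the points of the supports of the names in the range of `s` -/
def CC (e : Λ → Θ → I) (s : Θ → Λ) : Set I := {x | ∃ i j, e (s i) j = x}

/-- the trace of a name -/
def Tr (e : Λ → Θ → I) (Sat : Λ → G → Set (Cond I)) (s : Θ → Λ) (a : Λ) :
    Set (Finset ((Θ × Θ) × Bool) × G) :=
  {t | ∃ q : Cond I, q ∈ Sat a t.2 ∧ q.dom ⊆ range (e a) ∧
    ∀ x ∈ q.s, x.1 ∈ CC e s → ∃ w ∈ t.1, (e (s w.1.1) w.1.2, w.2) = x}

theorem exists_similar {χ μ : Cardinal.{0}} (hχ : ℵ₀ ≤ χ) (hχμ : χ ≤ μ) [Infinite Θ]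
    (hpow : χ ^ #Θ ≤ χ) (hS : #(Set (Finset ((Θ × Θ) × Bool) × G)) ≤ χ) (hΛ : ¬ #Λ ≤ μ)
    (e : Λ → Θ → I) (Sat : Λ → G → Set (Cond I)) :
    ∃ (s : Θ → Λ) (B : Set Λ) (g : ℕ → Λ), (¬ #B ≤ μ) ∧
      (∀ b ∈ B, ∀ n, Tr e Sat s (g n) = Tr e Sat s b) ∧
      ∀ m n, m < n → range (e (g m)) ∩ range (e (g n)) ⊆ CC e s := by
  classical
  have hne : Nonempty Λ := by
    by_contra h
    rw [not_nonempty_iff] at h
    apply hΛ
    rw [Cardinal.mk_eq_zero]
    exact zero_le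
  obtain ⟨e0⟩ := hne
  let F : Set (Finset ((Θ × Θ) × Bool) × G) → (Θ ⊕ Θ → Λ) → Λ := fun τ s =>
    if h : ∃ a, range (e a) ∩ CC e (fun i => s (Sum.inr i)) ⊆ CC e (fun i => s (Sum.inl i)) ∧
      Tr e Sat (fun i => s (Sum.inl i)) a = τ then h.choose else e0
  have hΘ2 : #(Θ ⊕ Θ) = #Θ := by
    simp
  obtain ⟨N, hN, ⟨n0, hn0⟩, hNF⟩ := exists_closed hχ hS (by rw [hΘ2]; exact hpow) e0 F
  -- covering the intersections
  have h1 : ∀ b : Λ, ∃ s : Θ → N, ∀ x ∈ range (e b), (∃ a ∈ N, x ∈ range (e a)) →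
      x ∈ CC e (fun i => (s i).1) := by
    intro b
    have h2 : ∀ j : Θ, ∃ a : N, (∃ a ∈ N, e b j ∈ range (e a)) → e b j ∈ range (e a.1) := by
      intro j
      by_cases h : ∃ a ∈ N, e b j ∈ range (e a)
      · obtain ⟨a, ha, ha'⟩ := h
        exact ⟨⟨a, ha⟩, fun _ => ha'⟩
      · exact ⟨⟨n0, hn0⟩, fun h' => absurd h' h⟩
    choose s hs using h2
    refine ⟨s, ?_⟩
    rintro _ ⟨j, rfl⟩ h
    obtain ⟨k, hk⟩ := hs j h
    exact ⟨j, k, hk⟩
  choose s hs using h1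
  obtain ⟨B, ⟨s0, τ⟩, -, hB, hBs⟩ := pigeon (χ := μ) (hχ.trans hχμ) (Set.univ : Set Λ)
    (by rwa [Cardinal.mk_univ])
    (fun b => ((s b, Tr e Sat (fun i => (s b i).1) b) :
      (Θ → N) × Set (Finset ((Θ × Θ) × Bool) × G))) (by
      refine le_trans ?_ hχμ
      rw [Cardinal.mk_prod, Cardinal.lift_id, Cardinal.lift_id, ← Cardinal.power_def]
      calc #N ^ #Θ * #(Set (Finset ((Θ × Θ) × Bool) × G)) ≤ χ ^ #Θ * χ :=
            mul_le_mul' (Cardinal.power_le_power_right hN) hS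
        _ ≤ χ * χ := mul_le_mul' hpow le_rfl
        _ = χ := Cardinal.mul_eq_self hχ)
  have hB1 : ∀ b ∈ B, s b = s0 := fun b hb => congrArg Prod.fst (hBs b hb)
  have hB2 : ∀ b ∈ B, Tr e Sat (fun i => (s0 i).1) b = τ := by
    intro b hb
    rw [← hB1 b hb]
    exact congrArg Prod.snd (hBs b hb)
  obtain ⟨b0, hb0⟩ : B.Nonempty := by
    by_contra h
    rw [not_nonempty_iff_eq_empty] at h
    apply hB
    rw [h, Cardinal.mk_eq_zero]
    exact zero_le
  obtain ⟨g, hg1, hg2⟩ := exists_seq_of_forall_finset_exists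
    (fun y => y ∈ N ∧ Tr e Sat (fun i => (s0 i).1) y = τ)
    (fun x y => range (e x) ∩ range (e y) ⊆ CC e (fun i => (s0 i).1)) (by
      intro S hSN
      obtain ⟨s', hs'N, hs'⟩ : ∃ s' : Θ → Λ, (∀ i, s' i ∈ N) ∧ ∀ x ∈ S, ∃ i, s' i = x := by
        have h3 : #(insert n0 S : Finset Λ) ≤ #Θ :=
          (Cardinal.lt_aleph0_of_finite _).le.trans (Cardinal.aleph0_le_mk Θ)
        obtain ⟨ψ⟩ := h3
        have : Nonempty (insert n0 S : Finset Λ) := ⟨⟨n0, Finset.mem_insert_self _ _⟩⟩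
        refine ⟨fun i => (Function.invFun ψ i).1, fun i => ?_, fun x hx => ?_⟩
        · rcases Finset.mem_insert.mp (Function.invFun ψ i).2 with h | h
          · show (Function.invFun ψ i).1 ∈ N
            rw [h]; exact hn0
          · exact (hSN _ h).1
        · obtain ⟨i, hi⟩ := Function.invFun_surjective ψ.injective
            ⟨x, Finset.mem_insert_of_mem hx⟩
          exact ⟨i, congrArg Subtype.val hi⟩
      have h4 : ∃ a, range (e a) ∩ CC e s' ⊆ CC e (fun i => (s0 i).1) ∧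
          Tr e Sat (fun i => (s0 i).1) a = τ := by
        refine ⟨b0, ?_, hB2 b0 hb0⟩
        rintro x ⟨hx1, i, j, hx2⟩
        have := hs b0 x hx1 ⟨s' i, hs'N i, ⟨j, hx2⟩⟩
        rwa [hB1 b0 hb0] at this
      have h5 := hNF τ (Sum.elim (fun i => (s0 i).1) s') (by
        rintro (i | i)
        · exact (s0 i).2
        · exact hs'N i)
      have h6 : F τ (Sum.elim (fun i => (s0 i).1) s') = h4.choose := dif_pos h4
      rw [h6] at h5
      refine ⟨h4.choose, ⟨h5, h4.choose_spec.2⟩, ?_⟩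
      rintro x hx y ⟨⟨j, hy1⟩, hy2⟩
      obtain ⟨i, hi⟩ := hs' x hx
      refine h4.choose_spec.1 ⟨hy2, i, j, ?_⟩
      rw [hi]
      exact hy1)
  exact ⟨fun i => (s0 i).1, B, g, hB, fun b hb n => (hg1 n).2.trans (hB2 b hb).symm, hg2⟩

end

end Pool.Agent.R582.SC
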