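import Mathlib

set_option autoImplicit false

/-!
# Discrete subspaces of `SC_p(X × X)`

From a combinatorial hypothesis on `ω₁` it follows that for every space `X` of weight at most `ℵ₁`
the discrete subspaces of `SC_p(X × X)` have fewer than `2 ^ ℵ₁` elements.
-/

namespace Pool.Agent.R582.SC

open Cardinal Set Topology

/-- `f : X × X → ℝ` is separately continuous. -/
def SepCont {X : Type} [TopologicalSpace X] (f : X × X → ℝ) : Prop :=
  (∀ x, Continuous fun y => f (x, y)) ∧ ∀ y, Continuous fun x => f (x, y)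

/-- `SC_p(X × X)`: the separately continuous functions `X × X → ℝ`, with the topology of pointwise
convergence (the subspace topology of the product topology). -/
abbrev SCp (X : Type) [TopologicalSpace X] : Type := {f : X × X → ℝ // SepCont f}

/-- For every Tychonoff space `X` of weight at most `κ` all discrete subspaces of `SC_p(X × X)` have
fewer than `2 ^ κ` elements. -/
def NegAt (κ : Cardinal.{0}) : Prop :=
  ∀ (X : Type) [TopologicalSpace X] [T35Space X],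
    (∃ B : Set (Set X), TopologicalSpace.IsTopologicalBasis B ∧ #B ≤ κ) →
      ∀ D : Set (SCp X), DiscreteTopology D → #D < 2 ^ κ

/-- The combinatorial hypothesis: the proper initial segments of `Ω` are countable, the countable
subsets of `Ω` are bounded, there are at least `|Λ|` subsets of `Ω × ℕ`, and for every family of
subsets `Y a` of `Ω × ℕ` indexed by `Λ` there are a sequence in `Λ` and an `a` such that for every
`i` some `Y b`, `b ≠ a`, that agrees with `Y a` below `i` is in the closure of that sequence. -/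
def Hyp (Ω Λ : Type) [LinearOrder Ω] : Prop :=
  Nonempty Ω ∧
  (∀ i : Ω, ∃ e : ℕ → Ω, ∀ j < i, ∃ n, e n = j) ∧
  (∀ g : ℕ → Ω, ∃ i, ∀ n, g n < i) ∧
  (∃ Z : Λ → Ω → ℕ → Prop, ∀ a b, a ≠ b → ¬ ∀ i n, (Z a i n ↔ Z b i n)) ∧
  ∀ Y : Λ → Ω → ℕ → Prop, ∃ (g : ℕ → Λ) (a : Λ), ∀ i : Ω, ∃ b, b ≠ a ∧
    (∀ j < i, ∀ n, (Y b j n ↔ Y a j n)) ∧
    ∀ F : Finset (Ω × ℕ), ∃ n, ∀ s ∈ F, (Y (g n) s.1 s.2 ↔ Y b s.1 s.2)

variable {Ω Λ : Type} [LinearOrder Ω]

theorem card_omega [Nonempty Ω] (h1 : ∀ i : Ω, ∃ e : ℕ → Ω, ∀ j < i, ∃ n, e n = j)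
    (h2 : ∀ g : ℕ → Ω, ∃ i, ∀ n, g n < i) : #Ω = ℵ_ 1 := by
  have hc : ∀ i : Ω, (Iio i).Countable := by
    intro i
    obtain ⟨e, he⟩ := h1 i
    exact (countable_range e).mono fun j hj => he j hj
  apply le_antisymm
  · by_contra hcon
    rw [not_le] at hcon
    obtain ⟨S, hS⟩ := Cardinal.le_mk_iff_exists_set.mp hcon.le
    have h3 : #(⋃ i : S, Iic (i : Ω)) ≤ ℵ_ 1 := by
      refine (Cardinal.mk_iUnion_le _).trans ?_
      rw [hS]
      refine (mul_le_mul' le_rfl (ciSup_le' fun i : S => ?_)).trans (Cardinal.mul_aleph0_eq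
        (Cardinal.aleph0_le_aleph 1)).le
      have : (Iic (i : Ω)).Countable := by
        rw [← Iio_insert]
        exact (hc _).insert _
      exact Cardinal.le_aleph0_iff_set_countable.mpr this
    obtain ⟨j, hj⟩ : ∃ j : Ω, j ∉ ⋃ i : S, Iic (i : Ω) := by
      by_contra hcon2
      push Not at hcon2
      have h4 : (⋃ i : S, Iic (i : Ω)) = Set.univ := eq_univ_of_forall hcon2
      rw [h4, Cardinal.mk_univ] at h3
      exact absurd h3 (not_le.mpr hcon)
    have h5 : S ⊆ Iio j := by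
      intro i hi
      by_contra h
      exact hj (mem_iUnion.mpr ⟨⟨i, hi⟩, not_lt.mp h⟩)
    have h6 : #S ≤ ℵ₀ := Cardinal.le_aleph0_iff_set_countable.mpr ((hc j).mono h5)
    rw [hS] at h6
    exact absurd h6 (not_le.mpr Cardinal.aleph0_lt_aleph_one)
  · rw [← Cardinal.succ_aleph0]
    refine Order.succ_le_of_lt ?_
    by_contra hcon
    rw [not_lt, Cardinal.mk_le_aleph0_iff] at hcon
    obtain ⟨g, hg⟩ := exists_surjective_nat Ω
    obtain ⟨i, hi⟩ := h2 g
    obtain ⟨n, hn⟩ := hg i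
    exact lt_irrefl i (hn ▸ hi n)

/-- A point of a discrete set of functions is isolated by finitely many points, up to a rational
error. -/
theorem isolate {X : Type} [TopologicalSpace X] (D : Set (SCp X)) (hD : DiscreteTopology D)
    (x0 : X × X) (f : SCp X) (hf : f ∈ D) : ∃ (y : ℕ → X × X) (m N : ℕ) (q : ℕ → ℚ),
      (∀ g ∈ D, (∀ k < m, |g.1 (y k) - f.1 (y k)| < 1 / (N + 1 : ℝ)) → g = f) ∧
      ∀ k, |f.1 (y k) - q k| < 1 / (N + 1 : ℝ) / 6 := by
  have h1 : IsOpen ({⟨f, hf⟩} : Set D) := isOpen_discrete _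
  obtain ⟨U, hU, hU'⟩ := isOpen_induced_iff.mp h1
  obtain ⟨V, hV, hV'⟩ := isOpen_induced_iff.mp hU
  have hfU : f ∈ U := by
    have : (⟨f, hf⟩ : D) ∈ (Subtype.val ⁻¹' U : Set D) := by
      rw [hU']; rfl
    exact this
  have hfV : f.1 ∈ V := by
    rw [← hV'] at hfU
    exact hfU
  obtain ⟨I, u, hu, huV⟩ := isOpen_pi_iff.mp hV f.1 hfV
  have h2 : ∀ p ∈ I, ∃ ε > 0, Metric.ball (f.1 p) ε ⊆ u p := fun p hp =>
    Metric.isOpen_iff.mp (hu p hp).1 _ (hu p hp).2
  choose! ε hε hεu using h2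
  obtain ⟨δ, hδ, hδI⟩ : ∃ δ > 0, ∀ p ∈ I, δ ≤ ε p := by
    rcases I.eq_empty_or_nonempty with rfl | hne
    · exact ⟨1, one_pos, by simp⟩
    · obtain ⟨p0, hp0, hmin⟩ := I.exists_min_image ε hne
      exact ⟨ε p0, hε p0 hp0, hmin⟩
  obtain ⟨N, hN⟩ := exists_nat_one_div_lt hδ
  have hpos : (0 : ℝ) < 1 / (N + 1 : ℝ) := by positivity
  have h3 : ∀ k : ℕ, ∃ q : ℚ, |f.1 (I.toList.getD k x0) - q| < 1 / (N + 1 : ℝ) / 6 := fun k =>
    exists_rat_near _ (by positivity)
  choose q hq using h3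
  refine ⟨fun k => I.toList.getD k x0, I.toList.length, N, q, fun g hg h => ?_, hq⟩
  have h4 : g.1 ∈ V := by
    refine huV fun p hp => hεu p hp ?_
    obtain ⟨k, hk, hkp⟩ := List.mem_iff_getElem.mp (Finset.mem_toList.mpr hp)
    have h5 := h k hk
    dsimp only at h5
    rw [List.getD_eq_getElem _ _ hk, hkp] at h5
    rw [Metric.mem_ball, Real.dist_eq]
    exact h5.trans (hN.trans_le (hδI p hp))
  have h5 : g ∈ U := by
    rw [← hV']
    exact h4
  have h6 : (⟨g, hg⟩ : D) ∈ ({⟨f, hf⟩} : Set D) := by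
    rw [← hU']
    exact h5
  exact congrArg Subtype.val h6

/-- The hypothesis implies the negated form of Q1 for `κ = ℵ₁`. -/
theorem neg_of_hyp (h : Hyp Ω Λ) : #Ω = ℵ_ 1 ∧ NegAt (ℵ_ 1) := by
  obtain ⟨hne, h1, h2, ⟨Z, hZ⟩, hY⟩ := h
  have hΩ := card_omega h1 h2
  refine ⟨hΩ, ?_⟩
  intro X _ _ hB D hD
  by_contra hcon
  rw [not_lt] at hcon
  -- an injection of `Λ` into `D`
  have hΛ : #Λ ≤ #D := by
    refine le_trans ?_ hcon
    have h3 : #Λ ≤ #(Set (Ω × ℕ)) := by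
      refine Cardinal.mk_le_of_injective (f := fun a => {s : Ω × ℕ | Z a s.1 s.2}) ?_
      intro a b hab
      by_contra hne
      refine hZ a b hne fun i n => ?_
      have h4 : (i, n) ∈ {s : Ω × ℕ | Z a s.1 s.2} ↔ (i, n) ∈ {s : Ω × ℕ | Z b s.1 s.2} := by
        rw [show {s : Ω × ℕ | Z a s.1 s.2} = {s : Ω × ℕ | Z b s.1 s.2} from hab]
      exact h4
    refine h3.trans ?_
    rw [Cardinal.mk_set, Cardinal.mk_prod, Cardinal.lift_id, Cardinal.lift_id, Cardinal.mk_nat,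
      hΩ, Cardinal.mul_aleph0_eq (Cardinal.aleph0_le_aleph 1)]
  obtain ⟨φ⟩ := hΛ
  set f : Λ → SCp X := fun a => (φ a).1 with hf
  have hfD : ∀ a, f a ∈ D := fun a => (φ a).2
  have hfi : ∀ a b, f a = f b → a = b := fun a b hab => φ.injective (Subtype.ext hab)
  -- a point
  obtain ⟨x0⟩ : Nonempty (X × X) := by
    by_contra hX
    rw [not_nonempty_iff] at hX
    obtain ⟨-, a, ha⟩ := hY fun _ _ _ => True
    obtain ⟨b, hb, -⟩ := ha hne.some
    exact hb (hfi b a (Subtype.ext (funext fun x => hX.elim x)))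
  -- the base
  obtain ⟨B, hB, hBc⟩ := hB
  obtain ⟨U, hU⟩ : ∃ U : Ω → Set X, ∀ V ∈ B, ∃ j, U j = V := by
    have hBne : B.Nonempty := by
      obtain ⟨V, hV, -⟩ := hB.exists_subset_of_mem_open (mem_univ x0.1) isOpen_univ
      exact ⟨V, hV⟩
    rw [← hΩ] at hBc
    obtain ⟨ψ⟩ := hBc
    have : Nonempty B := hBne.to_subtype
    obtain ⟨U', hU'⟩ : ∃ U' : Ω → B, Function.Surjective U' :=
      ⟨Function.invFun ψ, Function.invFun_surjective ψ.injective⟩
    exact ⟨fun j => (U' j).1, fun V hV => by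
      obtain ⟨j, hj⟩ := hU' ⟨V, hV⟩
      exact ⟨j, congrArg Subtype.val hj⟩⟩
  have near : ∀ (g : X → ℝ) (_ : Continuous g) (x : X) (δ : ℝ) (_ : 0 < δ), ∃ j, x ∈ U j ∧
      ∀ x' ∈ U j, |g x' - g x| < δ := by
    intro g hg x δ hδ
    have h3 : IsOpen {x' | |g x' - g x| < δ} :=
      isOpen_lt (hg.sub continuous_const).abs continuous_const
    obtain ⟨V, hV, hxV, hVs⟩ := hB.exists_subset_of_mem_open
      (show x ∈ {x' | |g x' - g x| < δ} by simpa using hδ) h3
    obtain ⟨j, rfl⟩ := hU V hV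
    exact ⟨j, hxV, fun x' hx' => hVs hx'⟩
  -- the isolating points
  choose y m N q hiso hq using fun a => isolate D hD x0 (f a) (hfD a)
  let c : Λ → ℕ × ℕ × List ℚ := fun a => (m a, N a, (List.range (m a)).map (q a))
  let code : (ℕ × ℕ × List ℚ) ⊕ ℕ ⊕ ℕ → ℕ := Encodable.encode
  let Y : Λ → Ω → ℕ → Prop := fun a j n =>
    match (Encodable.decode (α := (ℕ × ℕ × List ℚ) ⊕ ℕ ⊕ ℕ) n) with
    | some (Sum.inl d) => c a = d
    | some (Sum.inr (Sum.inl k)) => (y a k).1 ∈ U j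
    | some (Sum.inr (Sum.inr k)) => (y a k).2 ∈ U j
    | none => True
  have Y0 : ∀ a j d, Y a j (code (Sum.inl d)) ↔ c a = d := by
    intro a j d
    simp only [Y, code, Encodable.encodek]
  have Y1 : ∀ a j k, Y a j (code (Sum.inr (Sum.inl k))) ↔ (y a k).1 ∈ U j := by
    intro a j k
    simp only [Y, code, Encodable.encodek]
  have Y2 : ∀ a j k, Y a j (code (Sum.inr (Sum.inr k))) ↔ (y a k).2 ∈ U j := by
    intro a j k
    simp only [Y, code, Encodable.encodek]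
  obtain ⟨g, a, ha⟩ := hY Y
  set δ : ℝ := 1 / (N a + 1 : ℝ) with hδ
  have hδ0 : 0 < δ := by positivity
  choose j1 hj1 hj1' using fun k => near (fun x => (f a).1 (x, (y a k).2)) ((f a).2.2 _) (y a k).1
    (δ / 6) (by positivity)
  choose j2 hj2 hj2' using fun k n => near (fun z => (f a).1 ((y (g n) k).1, z)) ((f a).2.1 _)
    (y a k).2 (δ / 6) (by positivity)
  obtain ⟨i1, hi1⟩ := h2 j1
  obtain ⟨i2, hi2⟩ := h2 fun t => j2 t.unpair.1 t.unpair.2
  obtain ⟨b, hba, hbe, hbF⟩ := ha (max i1 i2)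
  have hcb : c b = c a := by
    have h3 := hbe (j1 0) ((hi1 0).trans_le (le_max_left _ _)) (code (Sum.inl (c a)))
    rw [Y0, Y0] at h3
    exact h3.mpr rfl
  have hcm : m b = m a := congrArg Prod.fst hcb
  have hcN : N b = N a := congrArg (fun t => t.2.1) hcb
  have hcq : ∀ k < m a, q b k = q a k := by
    intro k hk
    have h3 : (List.range (m b)).map (q b) = (List.range (m a)).map (q a) :=
      congrArg (fun t => t.2.2) hcb
    rw [hcm] at h3
    exact (List.map_inj_left.mp h3) k (List.mem_range.mpr hk)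
  refine hba (hfi b a (hiso b (f a) (hfD a) ?_).symm)
  intro k hk
  rw [hcm] at hk
  rw [hcN, ← hδ]
  have hb1 : (y b k).1 ∈ U (j1 k) := by
    have h3 := hbe (j1 k) ((hi1 k).trans_le (le_max_left _ _)) (code (Sum.inr (Sum.inl k)))
    rw [Y1, Y1] at h3
    exact h3.mpr (hj1 k)
  have hb2 : ∀ n, (y b k).2 ∈ U (j2 k n) := by
    intro n
    have h4 := hi2 (Nat.pair k n)
    rw [Nat.unpair_pair] at h4
    have h3 := hbe (j2 k n) (h4.trans_le (le_max_right _ _)) (code (Sum.inr (Sum.inr k)))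
    rw [Y2, Y2] at h3
    exact h3.mpr (hj2 k n)
  obtain ⟨j3, hj3, hj3'⟩ := near (fun x => (f a).1 (x, (y b k).2)) ((f a).2.2 _) (y b k).1
    (δ / 6) (by positivity)
  classical
  obtain ⟨n, hn⟩ := hbF {(j3, code (Sum.inr (Sum.inl k))), (j1 k, code (Sum.inr (Sum.inl k)))}
  have hn3 : (y (g n) k).1 ∈ U j3 := by
    have h3 := hn (j3, code (Sum.inr (Sum.inl k))) (by simp)
    rw [Y1, Y1] at h3
    exact h3.mpr hj3
  have hn1 : (y (g n) k).1 ∈ U (j1 k) := by
    have h3 := hn (j1 k, code (Sum.inr (Sum.inl k))) (by simp)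
    rw [Y1, Y1] at h3
    exact h3.mpr hb1
  have e1 := hj3' _ hn3
  have e2 := hj2' k n _ (hb2 n)
  have e3 := hj1' k _ hn1
  have e4 := hq a k
  have e5 := hq b k
  rw [hcq k hk, hcN] at e5
  rw [← hδ] at e4 e5

  have e6 : (f a).1 ((y b k).1, (y b k).2) = (f a).1 (y b k) := rfl
  have e7 : (f a).1 ((y a k).1, (y a k).2) = (f a).1 (y a k) := rfl
  rw [e6] at e1
  rw [e7] at e3
  rw [abs_lt] at *
  constructor <;> linarith [e1.1, e1.2, e2.1, e2.2, e3.1, e3.2, e4.1, e4.2, e5.1, e5.2]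

end Pool.Agent.R582.SC
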