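import Mathlib
import Pool.Agent.R582.SC.Top
import Pool.Agent.H631R2.FLang

set_option autoImplicit false

/-!
# The hypothesis as a sentence of the forcing language
-/

namespace Pool.Agent.R582.SC

open Cardinal Set
open Pool.Agent.Helper292.SP (fnot fand fall fimp fiff fex fground meets IsFun)

/-- The translation of `Hyp Ω Λ` into the forcing language of `P`: quantifiers over functions and
relations become quantifiers over names. -/
def HypN (P : Type) [Preorder P] (Ω Λ : Type) [LinearOrder Ω] : Set P :=
  fand (fground (Nonempty Ω)) <|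
  fand (fall fun i : Ω => fex fun e : ℕ → Ω → Set P => fand (IsFun e)
    (fall fun j : Ω => fimp (fground (j < i)) (fex fun n : ℕ => meets (e n j)))) <|
  fand (fall fun g : ℕ → Ω → Set P => fimp (IsFun g) (fex fun i : Ω => fall fun n : ℕ =>
    fall fun j : Ω => fimp (meets (g n j)) (fground (j < i)))) <|
  fand (fex fun Z : Λ → Ω → ℕ → Set P => fall fun a : Λ => fall fun b : Λ => fimp (fground (a ≠ b))
    (fnot (fall fun i : Ω => fall fun n : ℕ => fiff (meets (Z a i n)) (meets (Z b i n))))) <|
  fall fun Y : Λ → Ω → ℕ → Set P => fex fun g : ℕ → Λ → Set P => fand (IsFun g)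
    (fex fun a : Λ => fall fun i : Ω => fex fun b : Λ => fand (fground (b ≠ a)) <| fand
      (fall fun j : Ω => fall fun n : ℕ => fimp (fground (j < i))
        (fiff (meets (Y b j n)) (meets (Y a j n))))
      (fall fun F : Finset (Ω × ℕ) => fex fun n : ℕ => fall fun c : Λ => fimp (meets (g n c))
        (fall fun s : Ω × ℕ => fimp (fground (s ∈ F))
          (fiff (meets (Y c s.1 s.2)) (meets (Y b s.1 s.2))))))

end Pool.Agent.R582.SC
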