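import Mathlib
import Pool.Agent.R582.SC.Comb
import Pool.Agent.R582.SC.Card
import Pool.Agent.R582.SC.Names
import Pool.Agent.R582.Coh.Forced

set_option autoImplicit false

/-!
# The hypothesis holds after adding Cohen reals
-/

namespace Pool.Agent.R582.SC

open Cardinal Set
open Pool.Agent.Helper292.SP (fnot fand fall fimp fiff fex fground meets IsFun mem_fex mem_fimp
  not_fex down_meets meets_cst meets_of_mem pigeon)
open Pool.Agent.H631R2 (CCC NoOnto PowLE meets_of_dense mem_fiff mem_fiff_meets Cond)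
open Pool.Agent.R582.Coh

theorem down_fnot' {P : Type} [Preorder P] {φ : Set P} {p q : P} (h : p ∈ fnot φ) (hq : q ≤ p) :
    q ∈ fnot φ := fun r hr => h r (hr.trans hq)

section

variable {I : Type}

theorem rst_fnot {N : Set (Cond I)} {A : Set I} (hA : ∀ p ∈ meets N, rst p A ∈ meets N)
    {q : Cond I} (hq : q ∈ fnot (meets N)) : rst q A ∈ fnot (meets N) := by
  intro r hr hrN
  obtain ⟨u, hu, hu'⟩ := Cond.exists_lb (p := rst r A) (q := q) (by
    intro i b c hb hc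
    have h1 := mem_rst.1 hb
    exact Cond.unique h1.1 (hr (mem_rst.2 ⟨hc, h1.2⟩)))
  exact hq u hu' (down_meets (hA r hrN) hu)

/-- A nice name. -/
theorem exists_nice (N : Set (Cond I)) : ∃ w : ℕ → Option (Cond I),
    meets N = meets {t | ∃ n, w n = some t} := by
  obtain ⟨W, hWc, hW1, hW2⟩ := exists_decider ccc_cond N
  obtain ⟨w, hw⟩ : ∃ w : ℕ → Option (Cond I), ∀ t, (∃ n, w n = some t) ↔ t ∈ W ∧ t ∈ meets N := by
    rcases Set.eq_empty_or_nonempty {t | t ∈ W ∧ t ∈ meets N} with h | h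
    · refine ⟨fun _ => none, fun t => ⟨fun ⟨_, h'⟩ => absurd h' (by simp), fun h' => ?_⟩⟩
      have : t ∈ {t | t ∈ W ∧ t ∈ meets N} := h'
      rw [h] at this
      exact absurd this (notMem_empty _)
    · obtain ⟨f, hf⟩ := (hWc.mono fun t (ht : t ∈ {t | t ∈ W ∧ t ∈ meets N}) =>
        ht.1).exists_eq_range h
      refine ⟨fun n => some (f n), fun t => ?_⟩
      have h1 : t ∈ {t | t ∈ W ∧ t ∈ meets N} ↔ t ∈ range f := by rw [hf]
      constructor
      · rintro ⟨n, hn⟩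
        exact h1.mpr ⟨n, Option.some.inj hn⟩
      · intro ht
        obtain ⟨n, hn⟩ := h1.mp ht
        exact ⟨n, congrArg some hn⟩
  refine ⟨w, ?_⟩
  ext p
  constructor
  · intro hp q hq
    obtain ⟨v, hv, r, hr, hrv⟩ := hW2 q
    refine ⟨r, hr, v, (hw v).mpr ⟨hv, ?_⟩, hrv⟩
    rcases hW1 v hv with h | h
    · exact h
    · exact absurd (down_meets hp (hr.trans hq)) (h r hrv)
  · intro hp
    refine meets_of_dense fun q hq => ?_
    obtain ⟨r, hr, t, ht, hrt⟩ := hp q hq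
    exact ⟨r, hr, down_meets ((hw t).mp ht).2 hrt⟩

end

section

variable {I Ω Λ : Type}

/-- `q` decides the name `Y a` as prescribed by `g` -/
def Sat (Y : Λ → Ω → ℕ → Set (Cond I)) (a : Λ) (g : Finset ((Ω × ℕ) × Bool)) : Set (Cond I) :=
  {q | ∀ x ∈ g, (x.2 = true → q ∈ meets (Y a x.1.1 x.1.2)) ∧
    (x.2 = false → q ∈ fnot (meets (Y a x.1.1 x.1.2)))}

theorem Sat.down {Y : Λ → Ω → ℕ → Set (Cond I)} {a : Λ} {g : Finset ((Ω × ℕ) × Bool)}
    {q r : Cond I} (h : q ∈ Sat Y a g) (hr : r ≤ q) : r ∈ Sat Y a g := fun x hx =>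
  ⟨fun h' => down_meets ((h x hx).1 h') hr, fun h' => down_fnot' ((h x hx).2 h') hr⟩

theorem exists_e [Nonempty I] (Y : Λ → Ω → ℕ → Set (Cond I)) : ∃ e : Λ → Ω × ℕ × ℕ → I,
    ∀ a g, ∀ q ∈ Sat Y a g, rst q (range (e a)) ∈ Sat Y a g := by
  choose S hSc hS using fun (a : Λ) (j : Ω) (n : ℕ) => exists_support (Y a j n)
  have h1 : ∀ a j n, ∃ f : ℕ → I, S a j n ⊆ range f := by
    intro a j n
    have x0 : I := Classical.arbitrary I
    obtain ⟨f, hf⟩ := ((hSc a j n).insert x0).exists_eq_range ⟨x0, mem_insert _ _⟩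
    exact ⟨f, (subset_insert _ _).trans hf.subset⟩
  choose f hf using h1
  refine ⟨fun a x => f a x.1 x.2.1 x.2.2, fun a g q hq x hx => ?_⟩
  have h2 : S a x.1.1 x.1.2 ⊆ range (fun y : Ω × ℕ × ℕ => f a y.1 y.2.1 y.2.2) := by
    intro i hi
    obtain ⟨n, hn⟩ := hf _ _ _ hi
    exact ⟨(x.1.1, x.1.2, n), hn⟩
  have h3 : ∀ p ∈ meets (Y a x.1.1 x.1.2),
      rst p (range (fun y : Ω × ℕ × ℕ => f a y.1 y.2.1 y.2.2)) ∈ meets (Y a x.1.1 x.1.2) :=
    fun p hp => down_meets (hS _ _ _ p hp) (rst_anti h2)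
  exact ⟨fun h => h3 q ((hq x hx).1 h), fun h => rst_fnot h3 ((hq x hx).2 h)⟩

theorem exists_pattern (Y : Λ → Ω → ℕ → Set (Cond I)) (b : Λ) (F : Finset (Ω × ℕ)) (p : Cond I) :
    ∃ q ≤ p, ∃ g, q ∈ Sat Y b g ∧ ∀ s ∈ F, ∃ c, (s, c) ∈ g := by
  classical
  induction F using Finset.induction_on with
  | empty => exact ⟨p, le_rfl, ∅, fun x hx => absurd hx (Finset.notMem_empty _), fun s hs =>
      absurd hs (Finset.notMem_empty _)⟩
  | insert s F _ ih =>
    obtain ⟨q, hq, g, hg, hgF⟩ := ih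
    have h1 : ∃ r ≤ q, ∃ c : Bool, (c = true → r ∈ meets (Y b s.1 s.2)) ∧
        (c = false → r ∈ fnot (meets (Y b s.1 s.2))) := by
      by_cases h : q ∈ fnot (meets (Y b s.1 s.2))
      · exact ⟨q, le_rfl, false, by simp, fun _ => h⟩
      · obtain ⟨r, hr, hr'⟩ := not_mem_fnot h
        exact ⟨r, hr, true, fun _ => hr', by simp⟩
    obtain ⟨r, hr, c, hc⟩ := h1
    refine ⟨r, hr.trans hq, insert (s, c) g, ?_, ?_⟩
    · intro x hx
      rcases Finset.mem_insert.mp hx with rfl | hx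
      · exact hc
      · exact Sat.down hg hr x hx
    · intro s' hs'
      rcases Finset.mem_insert.mp hs' with rfl | hs'
      · exact ⟨c, Finset.mem_insert_self _ _⟩
      · obtain ⟨c', hc'⟩ := hgF s' hs'
        exact ⟨c', Finset.mem_insert_of_mem hc'⟩

theorem fiff_of_sat {Y : Λ → Ω → ℕ → Set (Cond I)} {a b : Λ} {g : Finset ((Ω × ℕ) × Bool)}
    {q : Cond I} (ha : q ∈ Sat Y a g) (hb : q ∈ Sat Y b g) {s : Ω × ℕ} {c : Bool} (hc : (s, c) ∈ g) :
    q ∈ fiff (meets (Y a s.1 s.2)) (meets (Y b s.1 s.2)) := by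
  refine mem_fiff_meets.mpr fun r hr => ?_
  cases c
  · have h1 := (ha _ hc).2 rfl
    have h2 := (hb _ hc).2 rfl
    exact ⟨fun h => absurd h (h1 r hr), fun h => absurd h (h2 r hr)⟩
  · have h1 := (ha _ hc).1 rfl
    have h2 := (hb _ hc).1 rfl
    exact ⟨fun _ => down_meets h2 hr, fun _ => down_meets h1 hr⟩

theorem closure_forced [Nonempty Ω] {Y : Λ → Ω → ℕ → Set (Cond I)} {e : Λ → Ω × ℕ × ℕ → I}
    (he : ∀ a g, ∀ q ∈ Sat Y a g, rst q (range (e a)) ∈ Sat Y a g) {s : Ω × ℕ × ℕ → Λ}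
    {g : ℕ → Λ} {b : Λ} (hg : ∀ n, Tr e (Sat Y) s (g n) = Tr e (Sat Y) s b)
    (hd : ∀ m n, m < n → range (e (g m)) ∩ range (e (g n)) ⊆ CC e s) (p : Cond I)
    (F : Finset (Ω × ℕ)) : ∃ n, ∃ r ≤ p, ∀ x ∈ F,
      r ∈ fiff (meets (Y (g n) x.1 x.2)) (meets (Y b x.1 x.2)) := by
  classical
  obtain ⟨p', hp', G, hG, hGF⟩ := exists_pattern Y b F p
  -- the trace
  have h1 : ∀ x : I × Bool, ∃ w : ((Ω × ℕ × ℕ) × (Ω × ℕ × ℕ)) × Bool, x.1 ∈ CC e s →
      (e (s w.1.1) w.1.2, w.2) = x := by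
    intro x
    by_cases hx : x.1 ∈ CC e s
    · obtain ⟨i, j, hij⟩ := hx
      exact ⟨((i, j), x.2), fun _ => Prod.ext hij rfl⟩
    · exact ⟨Classical.arbitrary _, fun h => absurd h hx⟩
  choose w hw using h1
  set q := rst p' (range (e b)) with hq
  have hqS : q ∈ Sat Y b G := he b G p' hG
  set v := (q.s.filter fun x => x.1 ∈ CC e s).image w with hv
  have hvp : ∀ t ∈ v, (e (s t.1.1) t.1.2, t.2) ∈ p'.s := by
    intro t ht
    obtain ⟨x, hx, rfl⟩ := Finset.mem_image.mp ht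
    obtain ⟨hx1, hx2⟩ := Finset.mem_filter.mp hx
    rw [hw x hx2]
    exact (mem_rst.1 hx1).1
  have h2 : (v, G) ∈ Tr e (Sat Y) s b := by
    refine ⟨q, hqS, ?_, fun x hx hxC => ⟨w x, ?_, hw x hxC⟩⟩
    · intro i hi
      obtain ⟨c, hc⟩ := Cond.mem_dom.mp hi
      exact (mem_rst.1 hc).2
    · exact Finset.mem_image.mpr ⟨x, Finset.mem_filter.mpr ⟨hx, hxC⟩, rfl⟩
  have h3 : ∀ n, ∃ u : Cond I, u ∈ Sat Y (g n) G ∧ u.dom ⊆ range (e (g n)) ∧
      ∀ x ∈ u.s, x.1 ∈ CC e s → x ∈ p'.s := by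
    intro n
    rw [← hg n] at h2
    obtain ⟨u, hu1, hu2, hu3⟩ := h2
    refine ⟨u, hu1, hu2, fun x hx hxC => ?_⟩
    obtain ⟨t, ht, rfl⟩ := hu3 x hx hxC
    exact hvp t ht
  -- a free index
  obtain ⟨n, hn⟩ : ∃ n, ∀ i ∈ p'.dom, i ∈ range (e (g n)) → i ∈ CC e s := by
    by_contra hcon
    push Not at hcon
    choose i hi1 hi2 hi3 using hcon
    have : Finite p'.dom := p'.dom_finite
    obtain ⟨m, n, hmn, hmn'⟩ := Finite.exists_ne_map_eq_of_infinite
      (fun n => (⟨i n, hi1 n⟩ : p'.dom))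
    have h4 : i m = i n := congrArg Subtype.val hmn'
    rcases lt_or_gt_of_ne hmn with h | h
    · exact hi3 n (hd m n h ⟨h4 ▸ hi2 m, hi2 n⟩)
    · exact hi3 n (hd n m h ⟨hi2 n, h4 ▸ hi2 m⟩)
  obtain ⟨u, hu1, hu2, hu3⟩ := h3 n
  obtain ⟨r, hr, hr'⟩ := Cond.exists_lb (p := u) (q := p') (by
    intro i b' c hb hc
    have h4 := hn i (Cond.mem_dom.mpr ⟨c, hc⟩) (hu2 (Cond.mem_dom.mpr ⟨b', hb⟩))
    exact Cond.unique (hu3 _ hb h4) hc)
  refine ⟨n, r, hr'.trans hp', fun x hx => ?_⟩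
  obtain ⟨c, hc⟩ := hGF x hx
  exact fiff_of_sat (Sat.down hu1 hr) (Sat.down hG hr') hc

end

/-- cardinality of the conditions -/
theorem mk_cond_le {I : Type} {μ : Cardinal.{0}} (hμ : ℵ₀ ≤ μ) (hI : #I ≤ μ) : #(Cond I) ≤ μ := by
  have h1 : #(Cond I) ≤ #(Finset (I × Bool)) :=
    Cardinal.mk_le_of_injective (f := fun p : Cond I => p.s) (by
      rintro ⟨s, hs⟩ ⟨t, ht⟩ h
      simp only at h
      subst h
      rfl)
  refine h1.trans ?_
  rcases finite_or_infinite (I × Bool) with h | h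
  · exact (Cardinal.lt_aleph0_of_finite _).le.trans hμ
  · rw [Cardinal.mk_finset_of_infinite, Cardinal.mk_prod, Cardinal.lift_id, Cardinal.lift_id]
    calc #I * #Bool ≤ μ * μ := mul_le_mul' hI ((Cardinal.lt_aleph0_of_finite _).le.trans hμ)
      _ = μ := Cardinal.mul_eq_self hμ

/-- The hypothesis is forced by adding Cohen reals. -/
theorem forced {K Ω Λ : Type} [LinearOrder Ω] [Nonempty Ω] [Nonempty K]
    (hΩ : #Ω = ℵ_ 1) (hΩ1 : ∀ i : Ω, (Iio i).Countable)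
    (hΩ2 : ∀ S : Set Ω, S.Countable → ∃ i, ∀ j ∈ S, j < i)
    {μ : Cardinal.{0}} (hK : #K ≤ μ) (hμ : μ ^ (ℵ₀ : Cardinal.{0}) ≤ μ)
    (hμ2 : (2 : Cardinal.{0}) ^ (ℵ_ 1 : Cardinal.{0}) ≤ μ) (hΛ : ¬ #Λ ≤ μ)
    (ι : Λ → Ω → K) (hι : Function.Injective ι) (p : Cond (K × ℕ)) :
    p ∈ HypN (Cond (K × ℕ)) Ω Λ := by
  classical
  refine ⟨inferInstanceAs (Nonempty Ω), fun i => ?_, fun g => ?_, ?_, fun Y => ?_⟩
  · obtain ⟨e, he⟩ := ((hΩ1 i).insert i).exists_eq_range ⟨i, mem_insert _ _⟩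
    refine mem_fex_self (fun n j => {_p | e n = j}) fun q _ => ⟨isFun_cst e q, fun j => ?_⟩
    refine mem_fimp.mpr fun r _ hj => ⟨r, le_rfl, ?_⟩
    obtain ⟨n, hn⟩ : j ∈ range e := by
      rw [← he]
      exact mem_insert_of_mem _ hj
    exact mem_fex_self n fun u _ => by rw [meets_cst]; exact hn
  · refine mem_fimp.mpr fun q _ hg => ⟨q, le_rfl, ?_⟩
    obtain ⟨i, hi⟩ := hΩ2 (⋃ n, {j | ∃ r ≤ q, r ∈ meets (g n j)})
      (countable_iUnion fun n => values_countable ccc_cond hg n)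
    refine mem_fex_self i fun r hr n j => mem_fimp.mpr fun u hu huj => ⟨u, le_rfl, ?_⟩
    exact hi j (mem_iUnion.mpr ⟨n, u, hu.trans hr, huj⟩)
  · refine mem_fex_self (fun a i n => cn (ι a i) n) fun q _ a b => ?_
    refine mem_fimp.mpr fun r _ hab => ⟨r, le_rfl, ?_⟩
    obtain ⟨i, hi⟩ : ∃ i, ι a i ≠ ι b i := by
      by_contra hcon
      push Not at hcon
      exact hab (hι (funext hcon))
    intro u hu hcon
    exact cn_distinct hi r u hu (hcon i)
  · obtain ⟨e, he⟩ := exists_e (I := K × ℕ) Y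
    have hμ0 : ℵ₀ ≤ μ := (Cardinal.aleph0_le_aleph 1).trans
      ((Cardinal.cantor _).le.trans hμ2)
    have hχ : (ℵ₀ : Cardinal.{0}) ≤ 2 ^ (ℵ_ 1 : Cardinal.{0}) :=
      (Cardinal.aleph0_le_aleph 1).trans (Cardinal.cantor _).le
    have : Infinite Ω := by
      rw [Cardinal.infinite_iff, hΩ]
      exact Cardinal.aleph0_le_aleph 1
    have h1 : ℵ_ 1 * (ℵ₀ : Cardinal.{0}) = ℵ_ 1 := Cardinal.mul_aleph0_eq (Cardinal.aleph0_le_aleph 1)
    have hΘ : #(Ω × ℕ × ℕ) = ℵ_ 1 := by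
      simp [hΩ, h1]
    have hΘ2 : #(Finset (((Ω × ℕ × ℕ) × (Ω × ℕ × ℕ)) × Bool)) = ℵ_ 1 := by
      rw [Cardinal.mk_finset_of_infinite, Cardinal.mk_prod, Cardinal.mk_prod]
      simp only [Cardinal.lift_id, hΘ]
      rw [Cardinal.mul_eq_self (Cardinal.aleph0_le_aleph 1), Cardinal.mk_bool]
      exact Cardinal.mul_eq_left (Cardinal.aleph0_le_aleph 1)
        ((Cardinal.natCast_lt_aleph0 (n := 2)).le.trans (Cardinal.aleph0_le_aleph 1)) two_ne_zero
    have hG : #(Finset ((Ω × ℕ) × Bool)) = ℵ_ 1 := by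
      rw [Cardinal.mk_finset_of_infinite, Cardinal.mk_prod, Cardinal.mk_prod]
      simp only [Cardinal.lift_id, hΩ, Cardinal.mk_nat, h1]
      rw [Cardinal.mk_bool]
      exact Cardinal.mul_eq_left (Cardinal.aleph0_le_aleph 1)
        ((Cardinal.natCast_lt_aleph0 (n := 2)).le.trans (Cardinal.aleph0_le_aleph 1)) two_ne_zero
    obtain ⟨s, B, g, hB, hB1, hd⟩ := exists_similar (I := K × ℕ) (Θ := Ω × ℕ × ℕ)
      (χ := 2 ^ (ℵ_ 1 : Cardinal.{0})) hχ hμ2 (by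
        rw [hΘ, ← Cardinal.power_mul, Cardinal.mul_eq_self (Cardinal.aleph0_le_aleph 1)]) (by
        rw [Cardinal.mk_set, Cardinal.mk_prod, Cardinal.lift_id, Cardinal.lift_id, hΘ2, hG,
          Cardinal.mul_eq_self (Cardinal.aleph0_le_aleph 1)]) hΛ e (Sat Y)
    refine mem_fex_self (fun n c => {_p | g n = c}) fun p0 _ => ⟨isFun_cst g p0, ?_⟩
    -- some `a` works
    refine mem_fex.mpr fun p1 _ => ?_
    by_contra hcon
    push Not at hcon
    have hcon' : ∀ a : Λ, ∃ i : Ω, ∃ q ≤ p1, ∀ r ≤ q, ∀ b : Λ, r ∉ fand (fground (b ≠ a)) (fand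
        (fall fun j : Ω => fall fun n : ℕ => fimp (fground (j < i))
          (fiff (meets (Y b j n)) (meets (Y a j n))))
        (fall fun F : Finset (Ω × ℕ) => fex fun n : ℕ => fall fun c : Λ =>
          fimp (meets {_p | g n = c}) (fall fun s : Ω × ℕ => fimp (fground (s ∈ F))
            (fiff (meets (Y c s.1 s.2)) (meets (Y b s.1 s.2)))))) := by
      intro a
      by_contra h
      push Not at h
      refine hcon p1 le_rfl a fun i => mem_fex.mpr fun q hq => ?_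
      obtain ⟨r, hr, b, hb⟩ := h i q hq
      exact ⟨r, hr, b, hb⟩
    choose i q hq hq' using hcon'
    choose w hw using fun (a : Λ) (j : Ω) (n : ℕ) => exists_nice (Y a j n)
    have hρ : ∀ i : Ω, ∃ ρ : ℕ → Ω, ∀ j < i, ∃ k, ρ k = j := by
      intro i
      obtain ⟨ρ, hρ⟩ := ((hΩ1 i).insert i).exists_eq_range ⟨i, mem_insert _ _⟩
      refine ⟨ρ, fun j hj => ?_⟩
      have : j ∈ range ρ := hρ ▸ mem_insert_of_mem _ hj
      exact this
    choose ρ hρ using hρ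
    have hC : #(Ω × Cond (K × ℕ) × (ℕ → ℕ → ℕ → Option (Cond (K × ℕ)))) ≤ μ := by
      have h2 : #(Cond (K × ℕ)) ≤ μ := mk_cond_le hμ0 (by
        rw [Cardinal.mk_prod, Cardinal.lift_id, Cardinal.lift_id, Cardinal.mk_nat]
        exact (mul_le_mul' hK hμ0).trans (Cardinal.mul_eq_self hμ0).le)
      have h3 : #(Option (Cond (K × ℕ))) ≤ μ := by
        rw [Cardinal.mk_option]
        exact (add_le_add h2 (Cardinal.one_le_aleph0.trans hμ0)).trans (Cardinal.add_eq_self hμ0).le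
      have h4 : ∀ A : Type, #A ≤ μ → #(ℕ → A) ≤ μ := by
        intro A hA
        rw [← Cardinal.power_def, Cardinal.mk_nat]
        exact (Cardinal.power_le_power_right hA).trans hμ
      rw [Cardinal.mk_prod, Cardinal.mk_prod]
      simp only [Cardinal.lift_id]
      refine (mul_le_mul' ?_ ((mul_le_mul' h2 (h4 _ (h4 _ (h4 _ h3)))).trans
        (Cardinal.mul_eq_self hμ0).le)).trans (Cardinal.mul_eq_self hμ0).le
      rw [hΩ]
      exact (Cardinal.cantor _).le.trans hμ2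
    obtain ⟨B', ⟨i0, q0, d0⟩, hB'B, hB', hB'd⟩ := pigeon hμ0 B hB
      (fun a => ((i a, q a, fun k n => w a (ρ (i a) k) n) :
        Ω × Cond (K × ℕ) × (ℕ → ℕ → ℕ → Option (Cond (K × ℕ))))) hC
    obtain ⟨a, ha, b, hb, hab⟩ : ∃ a ∈ B', ∃ b ∈ B', b ≠ a := by
      have h2 : 1 < #B' := (Cardinal.one_lt_aleph0.trans_le hμ0).trans (not_le.mp hB')
      obtain ⟨⟨a, ha⟩, ⟨b, hb⟩, hne⟩ := Cardinal.one_lt_iff_nontrivial.mp h2
      exact ⟨a, ha, b, hb, fun h => hne (Subtype.ext h.symm)⟩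
    have ea := hB'd a ha
    have eb := hB'd b hb
    simp only [Prod.mk.injEq] at ea eb
    refine hq' a (q a) le_rfl b ⟨hab, fun j n => ?_, fun F => ?_⟩
    · refine mem_fimp.mpr fun r _ hj => ⟨r, le_rfl, ?_⟩
      have hj' : j < i a := hj
      obtain ⟨k, hk⟩ := hρ (i a) j hj'
      have h2 : w b j n = w a j n := by
        have h3 := congrFun (congrFun ea.2.2 k) n
        have h4 := congrFun (congrFun eb.2.2 k) n
        rw [eb.1, ← ea.1, hk] at h4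
        rw [hk] at h3
        exact h4.trans h3.symm
      rw [hw b j n, hw a j n, h2]
      exact mem_fiff_meets.mpr fun _ _ => Iff.rfl
    · refine mem_fex.mpr fun r hr => ?_
      obtain ⟨n, u, hu, huF⟩ := closure_forced he (hB1 b (hB'B hb)) hd r F
      refine ⟨u, hu, n, fun c => mem_fimp.mpr fun v hv hc => ⟨v, le_rfl, fun x => ?_⟩⟩
      rw [meets_cst] at hc
      have hc' : g n = c := hc
      subst hc'
      refine mem_fimp.mpr fun t ht hx => ⟨t, le_rfl, ?_⟩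
      have h5 := mem_fiff_meets.mp (huF x hx)
      exact mem_fiff_meets.mpr fun t' ht' => h5 t' (ht'.trans (ht.trans hv))

end Pool.Agent.R582.SC
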