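import Mathlib
import Pool.Agent.R582.SC.Force
import Pool.Agent.R582.NR.Top

set_option autoImplicit false

/-!
# Adding `ℶ_ω₁` Cohen reals
-/

namespace Pool.Agent.R582.SC

open Cardinal Set
open Pool.Agent.H631R2 (Cond)

/-- the set `ω₁` -/
abbrev W : Type := (Ordinal.omega.{0} 1).ToType

theorem mk_W : #W = ℵ_ 1 := by rw [Cardinal.mk_toType, Ordinal.card_omega]

instance : Nonempty W := by
  rw [← Cardinal.mk_ne_zero_iff, mk_W]
  exact ((Cardinal.aleph_pos 1).ne')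

theorem exists_gt_all (S : Set W) (hS : S.Countable) : ∃ b, ∀ j ∈ S, j < b := by
  by_contra hcon
  push Not at hcon
  have h1 : (Set.univ : Set W) ⊆ ⋃ j ∈ S, Iic j := fun b _ => by
    obtain ⟨j, hj, hn⟩ := hcon b
    exact mem_biUnion hj hn
  have h2 : (⋃ j ∈ S, Iic j).Countable := hS.biUnion fun j _ => by
    have h3 : Iic j = insert j (Iio j) := (Iio_insert).symm
    rw [h3]
    exact (Pool.Agent.R582.NR.countable_Iio_omega j).insert _
  have h3 : #W ≤ ℵ₀ := by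
    rw [← Cardinal.mk_univ]
    exact Cardinal.le_aleph0_iff_set_countable.mpr (h2.mono h1)
  rw [mk_W] at h3
  exact absurd h3 (not_le.2 Cardinal.aleph0_lt_aleph_one)

/-- Adding `|K|` Cohen reals forces the hypothesis if `2 ^ ℵ₁ ≤ |K| = |K| ^ ℵ₀ < |K| ^ ℵ₁`. -/
theorem forced_main (K : Type) (h1 : (2 : Cardinal.{0}) ^ (ℵ_ 1 : Cardinal.{0}) ≤ #K)
    (h2 : #K ^ (ℵ₀ : Cardinal.{0}) = #K) (h3 : #K < #K ^ (ℵ_ 1 : Cardinal.{0}))
    (p : Cond (K × ℕ)) : p ∈ HypN (Cond (K × ℕ)) W (W → K) := by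
  have hK : Nonempty K := by
    rw [← Cardinal.mk_ne_zero_iff]
    exact ((zero_le.trans_lt (Cardinal.cantor _)).trans_le h1).ne'
  refine forced mk_W Pool.Agent.R582.NR.countable_Iio_omega exists_gt_all le_rfl h2.le h1 ?_
    id Function.injective_id p
  rw [← Cardinal.power_def, mk_W]
  exact not_le.mpr h3

end Pool.Agent.R582.SC
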